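import Pool.Agent.H64.Hji3

namespace Pool.Agent.Results.MP_8eb9f8_al.Exists

universe u

/-- infinite, and every non-trivial normal subgroup has finite index -/
def JustInfinite (G : Type) [Group G] : Prop :=
  Infinite G ∧ ∀ N : Subgroup G, N.Normal → N ≠ ⊥ → N.FiniteIndex

/-- every subgroup of finite index (including the group itself) is just infinite -/
def HereditarilyJustInfinite (G : Type) [Group G] : Prop :=
  ∀ H : Subgroup G, H.FiniteIndex → JustInfinite H

/-- the intersection of all finite-index normal subgroups is trivial -/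
def ResFinite (G : Type) [Group G] : Prop :=
  sInf {N : Subgroup G | N.Normal ∧ N.FiniteIndex} = ⊥

/-- a faithful self-similar action on the words over a finite alphabet with at least two letters -/
def AdmitsSelfSimilarAction (G : Type) [Group G] : Prop :=
  ∃ (X : Type) (_ : Finite X) (_ : MulAction G (List X)), 2 ≤ Nat.card X ∧
    (∀ g : G, (∀ w : List X, g • w = w) → g = 1) ∧
    ∀ (g : G) (x : X), ∃ (y : X) (h : G), ∀ w : List X, g • (x :: w) = y :: h • w

open H64.Hji in
theorem result : ∃ (G : Type) (_ : Group G), ResFinite G ∧ HereditarilyJustInfinite G ∧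
    AdmitsSelfSimilarAction G ∧
    ¬ ∃ (K : Type u) (_ : Field K) (n : ℕ) (f : G →* GL (Fin n) K), Function.Injective f := by
  have hS : commutator (alternatingGroup (Fin 5)) = ⊤ :=
    commutator_alternatingGroup_eq_top (by simp)
  have hnt : Nontrivial (alternatingGroup (Fin 5)) := inferInstance
  have hst : ∃ s t : alternatingGroup (Fin 5), s * t ≠ t * s := by
    by_contra h
    push Not at h
    have : commutator (alternatingGroup (Fin 5)) = ⊥ := by
      rw [commutator_def, Subgroup.commutator_eq_bot_iff_le_centralizer]
      intro a _ b _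
      exact h b a
    rw [hS] at this
    exact top_ne_bot this
  obtain ⟨s, t, hst⟩ := hst
  obtain ⟨G, w, h1, h2, h3⟩ := exists_G (S := alternatingGroup (Fin 5))
  have hG : Good G w := ⟨h1, h2, h3⟩
  refine ⟨G, inferInstance, ?_, fun H hH => hG.hji hS s t hst H hH, ?_, ?_⟩
  · rw [ResFinite, eq_bot_iff]
    intro g hg
    rw [Subgroup.mem_sInf] at hg
    rw [Subgroup.mem_bot]
    apply Subtype.ext
    ext1
    funext v
    exact hg _ ⟨inferInstance, fin_index G (v.length + 1)⟩ v (by omega)
  · obtain ⟨a, ha1, ha2⟩ := hG.selfsim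
    exact ⟨alternatingGroup (Fin 5), inferInstance, a, Finite.one_lt_card, ha1, ha2⟩
  · rintro ⟨K, _, n, f, hf⟩
    exact hG.nonlinear s t hst K n f hf

end Pool.Agent.Results.MP_8eb9f8_al.Exists
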